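import Pool.Agent.X84.Sl.Main

set_option autoImplicit false

/-!
# MP_b1773a: almost all slices of Kakeya sets have large Hausdorff dimension

Let `K ⊆ ℝ^n` be compact and let `e` be a unit vector.  For a height `h` let `Crossing K e h` be the
set of the directions of the segments contained in `K` which cross the hyperplane `⟪e, x⟫ = h`, and
let `slice K e h` be the part of `K` in this hyperplane.  Let `c ≥ 1` satisfy
`(n - 1) (c ^ 3 - 4 c + 2) + c (3 c - 1 - c ^ 2) ≥ 0`; for instance `c = 1.6752` for all `n ≥ 2`,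
and `c = 3 / 2` for `n = 4`.

* For almost every height `h` such that `Crossing K e h` has positive surface measure, the slice
  has Hausdorff dimension at least `(n - 1) / c`.
* For every `s < (n - 1) / c` there is `γ < 1`, depending on `n`, `c` and `s` only, such that this is
  true with `s` in place of `(n - 1) / c` for `μ`-almost every height, for every measure `μ` on
  the line with `μ (B(x, r)) ≤ A r ^ γ`.  Hence compact sets of heights at which the slice has
  dimension less than `s` have dimension at most `γ < 1`.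
* If `K` is a Kakeya set, then for every `e` there is an interval of heights of length `1 / 4` over
  which `Crossing K e h` has positive measure, so that both statements apply to all heights in it.
-/

open MeasureTheory Set Metric
open scoped ENNReal RealInnerProductSpace

namespace Pool.Agent.Results.MP_b1773a_an.AlmostEverySlice

/-- Euclidean space `ℝ^n`. -/
abbrev E (n : ℕ) : Type := EuclideanSpace ℝ (Fin n)

/-- The surface measure of the unit sphere. -/
noncomputable def surf (n : ℕ) : Measure (sphere (0 : E n) 1) := (volume : Measure (E n)).toSphere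

/-- The set of the directions of the segments `[a, b]` contained in `K` with `⟪e, a⟫ < h < ⟪e, b⟫`. -/
def Crossing {n : ℕ} (K : Set (E n)) (e : E n) (h : ℝ) : Set (sphere (0 : E n) 1) :=
  {ω | ∃ (a b : E n) (r : ℝ), segment ℝ a b ⊆ K ∧ ⟪e, a⟫ < h ∧ h < ⟪e, b⟫ ∧ b - a = r • (ω : E n)}

/-- The slice of `K` by the hyperplane `⟪e, x⟫ = h`. -/
def slice {n : ℕ} (K : Set (E n)) (e : E n) (h : ℝ) : Set (E n) := {x | x ∈ K ∧ ⟪e, x⟫ = h}

/-- `K` is a Kakeya set. -/
def IsKakeya {n : ℕ} (K : Set (E n)) : Prop :=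
  IsCompact K ∧ ∀ ω : sphere (0 : E n) 1, ∃ a : E n, ∀ t ∈ Icc (0 : ℝ) 1, a + t • (ω : E n) ∈ K

/-- `μ (B(x, r)) ≤ A r ^ γ` for all `x` and all `r ≤ 1`. -/
def Dim (γ : ℝ) (μ : Measure ℝ) : Prop :=
  ∃ A : ℝ, ∀ x r : ℝ, 0 < r → r ≤ 1 → μ (closedBall x r) ≤ ENNReal.ofReal (A * r ^ γ)

/-- `⟪e, ·⟫ = h` is crossed by segments of `K` in many directions, but the slice has dimension
less than `s`. -/
def Bad {n : ℕ} (K : Set (E n)) (e : E n) (s : ℝ) : Set ℝ :=
  {h | surf n (Crossing K e h) ≠ 0 ∧ dimH (slice K e h) < ENNReal.ofReal s}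

/-- **Almost all slices of Kakeya sets are large.** -/
theorem result (n : ℕ) (hn : 2 ≤ n) (c : ℝ) (hc1 : 1 ≤ c)
    (hc : 0 ≤ ((n : ℝ) - 1) * (c ^ 3 - 4 * c + 2) + c * (3 * c - 1 - c ^ 2)) :
    (∀ K : Set (E n), IsCompact K → ∀ e : E n, ‖e‖ = 1 → ∀ᵐ h : ℝ,
      surf n (Crossing K e h) ≠ 0 → ENNReal.ofReal (((n : ℝ) - 1) / c) ≤ dimH (slice K e h)) ∧
    (∀ s : ℝ, s < ((n : ℝ) - 1) / c → ∃ γ : ℝ, γ < 1 ∧
      ∀ K : Set (E n), IsCompact K → ∀ e : E n, ‖e‖ = 1 →
        (∀ μ : Measure ℝ, Dim γ μ → μ (Bad K e s) = 0) ∧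
        (∀ C : Set ℝ, IsCompact C → C ⊆ Bad K e s → dimH C ≤ ENNReal.ofReal γ)) ∧
    (∀ K : Set (E n), IsKakeya K → ∀ e : E n, ‖e‖ = 1 →
      ∃ h₀ : ℝ, ∀ h ∈ Ioo h₀ (h₀ + 1 / 4), surf n (Crossing K e h) ≠ 0) := by
  obtain ⟨d, rfl⟩ : ∃ d, n = d + 1 := ⟨n - 1, by omega⟩
  have hd : 1 ≤ d := by omega
  have e1 : (((d + 1 : ℕ) : ℝ) - 1) = d := by push_cast; ring
  rw [e1] at hc ⊢
  have hM := Pool.Agent.X84.Sl.main d hd c hc1 hc
  refine ⟨?_, ?_, ?_⟩
  · intro K hK e he
    have h1 : ∀ m : ℕ, volume {h : ℝ | surf (d + 1) (Crossing K e h) ≠ 0 ∧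
        dimH (slice K e h) < ENNReal.ofReal ((d : ℝ) / c - 1 / ((m : ℝ) + 1))} = 0 := by
      intro m
      have hm : (0 : ℝ) < 1 / ((m : ℝ) + 1) := by positivity
      obtain ⟨γ, -, hγ1, H⟩ := hM ((d : ℝ) / c - 1 / ((m : ℝ) + 1)) (by linarith)
      exact H K hK e he volume (Pool.Agent.X84.Sl.dim_volume hγ1.le)
    have h2 := measure_iUnion_null h1
    rw [ae_iff]
    refine measure_mono_null ?_ h2
    intro h hh
    simp only [Set.mem_ofPred_eq, Classical.not_imp, not_le] at hh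
    obtain ⟨h3, h4⟩ := hh
    obtain ⟨r, hr0, hr1, hr2⟩ := ENNReal.lt_iff_exists_real_btwn.1 h4
    have h5 : r < (d : ℝ) / c := by
      by_contra hcon
      exact absurd (ENNReal.ofReal_le_ofReal (not_lt.1 hcon)) (not_le.2 hr2)
    obtain ⟨m, hm⟩ := exists_nat_one_div_lt (sub_pos.2 h5)
    exact Set.mem_iUnion.2 ⟨m, h3, hr1.trans_le (ENNReal.ofReal_le_ofReal (by linarith))⟩
  · intro s hs
    obtain ⟨γ, hγ0, hγ1, H⟩ := hM s hs
    refine ⟨γ, hγ1, fun K hK e he => ⟨fun μ hμ => H K hK e he μ hμ, fun C hC hCB => ?_⟩⟩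
    exact Pool.Agent.X84.Sl.compact_exceptional hγ0 C hC fun μ hμ =>
      measure_mono_null hCB (H K hK e he μ hμ)
  · intro K hK e he
    obtain ⟨h0, h⟩ := Pool.Agent.X84.Sl.kakeya_cross K hK.2 e he
    exact ⟨h0, fun x hx => h x hx.1 hx.2⟩

end Pool.Agent.Results.MP_b1773a_an.AlmostEverySlice
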