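import Pool.Agent.TH404.AK.Sdc3
import Pool.Agent.X84.Kk.Inter

/-!
# MP_b1773a: covers of Kakeya sets by sets of finitely many sizes; intermediate dimensions

Let `c = 1.669587`.  For Kakeya sets `K ⊆ ℝ^n` the arithmetic method gives
`|N_δ K| ≥ κ δ ^ ((n-1) (1 - 1/c))`, that is, a bound for covers of `K` by sets of *one* size.  Here
the sizes in the cover may be different in `J` different parts of `K`:

1. if `K ⊆ F_1 ∪ ... ∪ F_J` is an arbitrary decomposition and `δ_1, ..., δ_J > 0` are arbitrary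
  scales, then `∑ δ_j ^ (-(n-1) (1 - 1/c)) |N_{δ_j} F_j| ≥ κ(n, J) > 0`;
2. for every `θ ∈ (0, 1]` the lower `θ`-intermediate dimension of `K` is at least
  `1 + (n-1) / c`;
3. in every decomposition of `K` into finitely many bounded sets (no measurability is assumed) one of
  the parts has lower Minkowski dimension at least `1 + (n-1) / c`.

The proof colours the heights of every segment by the parts of the decomposition and applies van der
Waerden's theorem to find, on a fixed proportion of the segments, one and the same homothetic copy of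
the finite set of heights which the arithmetic method needs, all of whose points are in one part.
-/

set_option autoImplicit false
open MeasureTheory Set
open scoped ENNReal

namespace Pool.Agent.Results.MP_b1773a_an.FinitelyManyScales

/-- `K` contains a unit segment in every direction. -/
def HasSegments {n : ℕ} (K : Set (EuclideanSpace ℝ (Fin n))) : Prop :=
  ∀ e : EuclideanSpace ℝ (Fin n), ‖e‖ = 1 → ∃ a : EuclideanSpace ℝ (Fin n),
    ∀ t ∈ Set.Icc (0 : ℝ) 1, a + t • e ∈ K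

/-- The lower Minkowski dimension `n - limsup_{δ → 0+} log |N_δ K| / log δ`. -/
noncomputable def lowerMinkowski {n : ℕ} (K : Set (EuclideanSpace ℝ (Fin n))) : ℝ :=
  n - Filter.limsup (fun δ : ℝ => Real.log (volume (Metric.thickening δ K)).toReal / Real.log δ)
    (nhdsWithin 0 (Set.Ioi 0))

/-- The lower `θ`-intermediate dimension (Falconer, Fraser, Kempton): the infimum of the `s ≥ 0`
such that for all `ε, δ₀ > 0` there are `0 < δ ≤ δ₀` and a finite cover of `K` by sets `U i` with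
`δ^(1/θ) ≤ |U i| ≤ δ` and `∑ |U i|^s ≤ ε`, `|U|` being the diameter of `U`. -/
noncomputable def lowerIntermediate {n : ℕ} (θ : ℝ) (K : Set (EuclideanSpace ℝ (Fin n))) : EReal :=
  sInf {x : EReal | ∃ s : ℝ, x = s ∧ 0 ≤ s ∧ ∀ ε : ℝ, 0 < ε → ∀ δ₀ : ℝ, 0 < δ₀ →
    ∃ δ : ℝ, 0 < δ ∧ δ ≤ δ₀ ∧ ∃ (N : ℕ) (U : Fin N → Set (EuclideanSpace ℝ (Fin n))),
      K ⊆ ⋃ i, U i ∧ (∀ i, δ ^ (1 / θ) ≤ Metric.diam (U i) ∧ Metric.diam (U i) ≤ δ) ∧
      ∑ i, Metric.diam (U i) ^ s ≤ ε}

/-- **Covers of Kakeya sets by sets of finitely many sizes.** -/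
theorem result (n : ℕ) (hn : 1 ≤ n) :
    (∀ J : ℕ, ∃ κ : ℝ, 0 < κ ∧ ∀ K : Set (EuclideanSpace ℝ (Fin n)), HasSegments K →
      ∀ (F : Fin J → Set (EuclideanSpace ℝ (Fin n))) (δ : Fin J → ℝ), K ⊆ ⋃ j, F j →
        (∀ j, 0 < δ j) → ENNReal.ofReal κ ≤
          ∑ j, ENNReal.ofReal (δ j ^ (-(((n : ℝ) - 1) * (1 - 1 / 1.669587)))) *
            volume (Metric.thickening (δ j) (F j))) ∧
    (∀ K : Set (EuclideanSpace ℝ (Fin n)), HasSegments K → ∀ θ : ℝ, 0 < θ → θ ≤ 1 →
      ((1 + ((n : ℝ) - 1) / 1.669587 : ℝ) : EReal) ≤ lowerIntermediate θ K) ∧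
    (∀ K : Set (EuclideanSpace ℝ (Fin n)), HasSegments K →
      ∀ (J : ℕ) (F : Fin J → Set (EuclideanSpace ℝ (Fin n))),
        (∀ j, Bornology.IsBounded (F j)) → (∀ j, (F j).Nonempty) → K ⊆ ⋃ j, F j →
          ∃ j, 1 + ((n : ℝ) - 1) / 1.669587 ≤ lowerMinkowski (F j)) := by
  have hsd : Pool.Agent.W46.KK.SD (1669587 / 1000000) := by
    obtain ⟨S, h⟩ := Pool.Agent.TH404.AK.sdc3
    exact ⟨S, h⟩
  have e : (1.669587 : ℝ) = 1669587 / 1000000 := by norm_num
  have hc : (1 : ℝ) ≤ 1669587 / 1000000 := by norm_num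
  rw [e]
  obtain ⟨d, rfl⟩ : ∃ d, n = d + 1 := ⟨n - 1, by omega⟩
  have e1 : (((d + 1 : ℕ) : ℝ) - 1) = d := by push_cast; ring
  simp only [e1]
  refine ⟨?_, ?_, ?_⟩
  · intro J
    obtain ⟨κ, hκ, h⟩ := Pool.Agent.X84.Kk.volJ hsd hc d J
    refine ⟨κ, hκ, fun K hK F δ hKF hδ => ?_⟩
    have := h K hK F δ hKF hδ
    have e2 : -((d : ℝ) * (1 - 1 / (1669587 / 1000000))) = (d : ℝ) / (1669587 / 1000000) - d := by
      ring
    rw [e2]
    exact this
  · intro K hK θ h0 h1
    exact Pool.Agent.X84.Kk.inter_ge hsd hc d K hK θ h0 h1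
  · intro K hK J F hb hne hKF
    exact Pool.Agent.X84.Kk.decomposition hsd hc d K hK J F hb hne hKF

end Pool.Agent.Results.MP_b1773a_an.FinitelyManyScales
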