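import Pool.Agent.X84.Hyp.Slices

set_option autoImplicit false

/-!
# MP_b1773a: Kakeya sets and countable unions of hypersurfaces of class `C^(n-2)`

A *hypersurface of class `C^k`* of a normed space `F` is a set given, near each of its points, by
one equation `g = 0` with `g` of class `C^k` and `Dg ≠ 0`.  `CoveredBySmooth k A` means that `A` is
contained in a countable union of hypersurfaces of class `C^k`.  Let `n = m + 2 ≥ 3`.

1. If `N ⊆ ℝ^n` is contained in a countable union of hypersurfaces of class `C^(n-2)`, then for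
   almost every direction `e`, *every* line with direction `e` meets `N` in a set of length zero.
   So a Kakeya set is never contained in such a union, and if one removes such a union from a set
   with a unit segment in every direction of `S`, then the rest still contains almost all points
   of a unit segment in almost every direction of `S`.
2. If `K ⊆ ℝ^n` contains a unit segment in every direction of a set `S` of positive surface
   measure, all directions of `S` making an angle of at most `60°` with the first axis, then there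
   is an interval of heights of length `1 / 4` over which `K` has no empty slice, and in
   which all but at most `n - 1` of the slices are not contained in a countable union of
   hypersurfaces of class `C^(n-2)` of `ℝ^(n-1)`.  Nothing is assumed on the way in which the slices
   change with the height.
3. For `n` different heights `t_i` and sets `A_i ⊆ ℝ^(n-1)` contained in countable unions of
   hypersurfaces of class `C^(n-2)`, almost no `v` is the velocity of a line `t ↦ q + t v` with
   `q + t_i v ∈ A_i` for all `i`.  This is false for `n - 1` heights: there hyperplanes `A_i` are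
   met by lines of all velocities.
-/

open MeasureTheory Set Metric
open scoped ENNReal

namespace Pool.Agent.Results.MP_b1773a_an.SmoothHypersurfaces

/-- The space `ℝ^n`. -/
abbrev E (n : ℕ) : Type := EuclideanSpace ℝ (Fin n)

/-- The unit sphere of `ℝ^n`. -/
abbrev Direction (n : ℕ) : Type := sphere (0 : E n) 1

/-- The surface measure of the unit sphere. -/
noncomputable def surf (n : ℕ) : Measure (Direction n) := (volume : Measure (E n)).toSphere

/-- The hypersurface of all regular zeros of `g` in the open set `O`. -/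
def Hypersurface {F : Type*} [NormedAddCommGroup F] [NormedSpace ℝ F] (O : Set F) (g : F → ℝ) :
    Set F :=
  {x | x ∈ O ∧ g x = 0 ∧ fderiv ℝ g x ≠ 0}

/-- `A` is contained in a countable union of hypersurfaces of class `C^k`. -/
def CoveredBySmooth {F : Type*} [NormedAddCommGroup F] [NormedSpace ℝ F] (k : ℕ) (A : Set F) :
    Prop :=
  ∃ (O : ℕ → Set F) (g : ℕ → F → ℝ), (∀ j, IsOpen (O j) ∧ ContDiffOn ℝ k (g j) (O j)) ∧
    A ⊆ ⋃ j, Hypersurface (O j) (g j)

/-- The slice of `K ⊆ ℝ^(d+1)` at height `t`: the set of all `y ∈ ℝ^d` with `(t, y) ∈ K`. -/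
def slice {d : ℕ} (K : Set (E (d + 1))) (t : ℝ) : Set (Fin d → ℝ) :=
  {y | WithLp.toLp 2 (Fin.cons t y : Fin (d + 1) → ℝ) ∈ K}

/-- In every direction of `S` there is a unit segment contained in `K`. -/
def HasSegmentsIn {n : ℕ} (K : Set (E n)) (S : Set (Direction n)) : Prop :=
  ∀ e ∈ S, ∃ z : E n, ∀ s ∈ Icc (0 : ℝ) 1, z + s • (e : E n) ∈ K

/-- **Kakeya sets and hypersurfaces of class `C^(n-2)`**, where `n = m + 2`. -/
theorem result (m : ℕ) (hm : 1 ≤ m) :
    (∀ N : Set (E (m + 1 + 1)), CoveredBySmooth m N → ∀ᵐ e : Direction (m + 1 + 1) ∂surf _,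
      ∀ a : E (m + 1 + 1), volume {t : ℝ | a + t • (e : E (m + 1 + 1)) ∈ N} = 0) ∧
    (∀ (K : Set (E (m + 1 + 1))) (S : Set (Direction (m + 1 + 1))),
      (∀ e ∈ S, 1 / 2 ≤ |(e : E (m + 1 + 1)) 0|) → surf _ S ≠ 0 → HasSegmentsIn K S →
      ∃ a : ℝ, (∀ t ∈ Icc a (a + 1 / 4), (slice K t).Nonempty) ∧
        {t ∈ Icc a (a + 1 / 4) | CoveredBySmooth m (slice K t)}.encard ≤ (m + 1 : ℕ)) ∧
    (∀ t : Fin (m + 2) → ℝ, Function.Injective t →
      ∀ A : Fin (m + 2) → Set (Fin (m + 1) → ℝ), (∀ i, CoveredBySmooth m (A i)) →
      volume {v : Fin (m + 1) → ℝ | ∃ q : Fin (m + 1) → ℝ, ∀ i, q + t i • v ∈ A i} = 0) ∧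
    (∀ t : Fin (m + 1) → ℝ, ∃ A : Fin (m + 1) → Set (Fin (m + 1) → ℝ),
      (∀ i, CoveredBySmooth m (A i)) ∧
      ∀ v : Fin (m + 1) → ℝ, ∃ q : Fin (m + 1) → ℝ, ∀ i, q + t i • v ∈ A i) :=
  ⟨fun _ hN => Pool.Agent.X84.Hyp.whole_sphere hm hN,
    fun _ _ hS hS0 hK => Pool.Agent.X84.Hyp.few_hyp hm hS hK hS0,
    fun _ ht _ hA => Pool.Agent.X84.Hyp.hyp_vel hm ht hA,
    fun t => Pool.Agent.X84.Hyp.sharp t⟩

end Pool.Agent.Results.MP_b1773a_an.SmoothHypersurfaces
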