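import Pool.Agent.W769.Kak.Wrap

set_option autoImplicit false

/-!
# MP_b1773a: Kakeya sets whose lines depend continuously on the direction, of Sobolev class

Let `n = d + 1 ≥ 2`, let `U ⊆ ℝ^d` be open and let `a : U → ℝ^d` be continuous and locally of the
fractional Sobolev class `W^(1 - 1/d, d)`:

  `∫∫ |a(v) - a(w)|^d / |v - w|^(2 d - 1) dv dw < ∞` on small cubes,

or locally Hölder with an exponent larger than `1 - 1/d`.  Let `K ⊆ ℝ^n` be closed and suppose that, for every `v ∈ U`, `K` contains a nondegenerate segment, of arbitrary position and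
length, of the line `{(t, a(v) + t v) : t ∈ ℝ}` in the direction `(1, v)`.  Then `K` has positive
Lebesgue measure and Hausdorff dimension `n`, and there is an interval of heights in which all but at
most `d` of the slices of `K` have positive measure.
-/

open MeasureTheory Set
open scoped ENNReal

namespace Pool.Agent.Results.MP_b1773a_an.SobolevSelections

/-- The space `ℝ^(d+1)`. -/
abbrev Space (d : ℕ) : Type := EuclideanSpace ℝ (Fin (d + 1))

/-- The point `(t, y)` of `ℝ^(d+1)`, with height `t ∈ ℝ` and `y ∈ ℝ^d`. -/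
def point {d : ℕ} (t : ℝ) (y : Fin d → ℝ) : Space d := WithLp.toLp 2 (Fin.cons t y)

/-- The slice of `K ⊆ ℝ^(d+1)` at the height `t`. -/
def slice {d : ℕ} (K : Set (Space d)) (t : ℝ) : Set (Fin d → ℝ) := {y | point t y ∈ K}

/-- The Gagliardo energy of order `1 - 1/d` and exponent `d` on the set `Q`. -/
noncomputable def energy {d : ℕ} (a : (Fin d → ℝ) → Fin d → ℝ) (Q : Set (Fin d → ℝ)) : ℝ≥0∞ :=
  ∫⁻ v in Q, ∫⁻ w in Q, ‖a v - a w‖ₑ ^ d / ‖v - w‖ₑ ^ (2 * d - 1)

/-- `a` is Hölder on `Q` with an exponent larger than `1 - 1/d`. -/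
def HoelderOn {d : ℕ} (a : (Fin d → ℝ) → Fin d → ℝ) (Q : Set (Fin d → ℝ)) : Prop :=
  ∃ α C : ℝ, 0 < α ∧ 1 - 1 / (d : ℝ) < α ∧ ∀ v ∈ Q, ∀ w ∈ Q, ‖a v - a w‖ ≤ C * ‖v - w‖ ^ α

/-- `K` contains a nondegenerate segment of the line `{(t, a(v) + t v) : t ∈ ℝ}`, for all `v ∈ U`. -/
def ContainsSegments {d : ℕ} (U : Set (Fin d → ℝ)) (a : (Fin d → ℝ) → Fin d → ℝ)
    (K : Set (Space d)) : Prop :=
  ∀ v ∈ U, ∃ p q : ℝ, p < q ∧ ∀ t ∈ Icc p q, point t (a v + t • v) ∈ K

theorem continuous_point (d : ℕ) : Continuous fun z : ℝ × (Fin d → ℝ) => point z.1 z.2 := by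
  refine (PiLp.continuous_toLp 2 _).comp ?_
  refine continuous_pi fun l => ?_
  refine Fin.cases ?_ (fun i => ?_) l
  · simp only [Fin.cons_zero]
    fun_prop
  · simp only [Fin.cons_succ]
    fun_prop

/-- On a small cube all lines have a segment over the same interval in `K` (Baire). -/
theorem baire {d : ℕ} (U : Set (Fin d → ℝ)) (hU : IsOpen U) (hne : U.Nonempty)
    (a : (Fin d → ℝ) → Fin d → ℝ) (ha : ContinuousOn a U) (K : Set (Space d)) (hK : IsClosed K)
    (hseg : ContainsSegments U a K) :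
    ∃ v ∈ U, ∃ p q : ℝ, p < q ∧ ∃ O ∈ nhds v, ∀ w ∈ O, ∀ t ∈ Icc p q, point t (a w + t • w) ∈ K := by
  obtain ⟨v₁, hv₁⟩ := hne
  obtain ⟨r, hr, hrU⟩ := Metric.nhds_basis_closedBall.mem_iff.1 (hU.mem_nhds hv₁)
  have hrc : ContinuousOn a (Metric.closedBall v₁ r) := ha.mono hrU
  let F : {z : ℚ × ℚ // z.1 < z.2} → Set (Fin d → ℝ) := fun z =>
    {v | v ∈ Metric.closedBall v₁ r ∧ ∀ t ∈ Icc (z.1.1 : ℝ) z.1.2, point t (a v + t • v) ∈ K} ∪
      (Metric.ball v₁ r)ᶜ
  have hF : ∀ z, IsClosed (F z) := by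
    intro z
    refine IsClosed.union ?_ Metric.isOpen_ball.isClosed_compl
    have h1 : {v | v ∈ Metric.closedBall v₁ r ∧
        ∀ t ∈ Icc (z.1.1 : ℝ) z.1.2, point t (a v + t • v) ∈ K} =
        Metric.closedBall v₁ r ∩ ⋂ t ∈ Icc (z.1.1 : ℝ) z.1.2,
          (Metric.closedBall v₁ r ∩ (fun v => point t (a v + t • v)) ⁻¹' K) ∪
            (Metric.closedBall v₁ r ∩ {v | False}) := by
      ext v
      simp only [Set.mem_ofPred_eq, Set.mem_inter_iff, Set.mem_iInter, Set.mem_union,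
        Set.mem_preimage, and_false, or_false]
      constructor
      · rintro ⟨h1, h2⟩
        exact ⟨h1, fun t ht => ⟨h1, h2 t ht⟩⟩
      · rintro ⟨h1, h2⟩
        exact ⟨h1, fun t ht => (h2 t ht).2⟩
    rw [h1]
    refine Metric.isClosed_closedBall.inter (isClosed_biInter fun t _ => ?_)
    have h2 : ContinuousOn (fun v => point t (a v + t • v)) (Metric.closedBall v₁ r) := by
      have h3 : ContinuousOn (fun v : Fin d → ℝ => ((t, a v + t • v) : ℝ × (Fin d → ℝ)))
          (Metric.closedBall v₁ r) :=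
        continuousOn_const.prodMk (hrc.add (by fun_prop))
      exact (continuous_point d).comp_continuousOn h3
    have h4 : (Metric.closedBall v₁ r ∩ {v : Fin d → ℝ | False}) = ∅ := by
      ext v; simp
    rw [h4, Set.union_empty]
    exact h2.preimage_isClosed_of_isClosed Metric.isClosed_closedBall hK
  have hcov : ⋃ z, F z = univ := by
    rw [Set.eq_univ_iff_forall]
    intro v
    by_cases hv : v ∈ Metric.ball v₁ r
    · have hvc := Metric.ball_subset_closedBall hv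
      obtain ⟨p, q, hpq, h⟩ := hseg v (hrU hvc)
      obtain ⟨p', hp1, hp2⟩ := exists_rat_btwn hpq
      obtain ⟨q', hq1, hq2⟩ := exists_rat_btwn hp2
      refine Set.mem_iUnion.2 ⟨⟨(p', q'), by exact_mod_cast hq1⟩, Or.inl ⟨hvc, fun t ht => ?_⟩⟩
      exact h t ⟨hp1.le.trans ht.1, ht.2.trans hq2.le⟩
    · have hz : ((0 : ℚ), (1 : ℚ)).1 < ((0 : ℚ), (1 : ℚ)).2 := by norm_num
      exact Set.mem_iUnion.2 ⟨⟨((0 : ℚ), (1 : ℚ)), hz⟩, Or.inr hv⟩
  have hdense := dense_iUnion_interior_of_closed hF hcov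
  obtain ⟨v, hv1, hv2⟩ := hdense.inter_open_nonempty (Metric.ball v₁ r) Metric.isOpen_ball
    ⟨v₁, Metric.mem_ball_self hr⟩
  obtain ⟨z, hz⟩ := Set.mem_iUnion.1 hv2
  refine ⟨v, hrU (Metric.ball_subset_closedBall hv1), z.1.1, z.1.2, by exact_mod_cast z.2,
    Metric.ball v₁ r ∩ interior (F z),
    Filter.inter_mem (Metric.isOpen_ball.mem_nhds hv1) (isOpen_interior.mem_nhds hz), ?_⟩
  rintro w ⟨hw1, hw2⟩ t ht
  rcases interior_subset hw2 with h | h
  · exact h.2 t ht
  · exact absurd hw1 h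

/-- **Kakeya sets with continuous selections of lines of class `W^(1 - 1/(n-1), n-1)` (or of a
Hölder class with exponent `> 1 - 1/(n-1)`) have positive measure.** -/
theorem result (d : ℕ) (hd : 1 ≤ d) (U : Set (Fin d → ℝ)) (hU : IsOpen U) (hne : U.Nonempty)
    (a : (Fin d → ℝ) → Fin d → ℝ) (ha : ContinuousOn a U)
    (hE : ∀ v ∈ U, ∃ Q ∈ nhds v, energy a Q < ∞ ∨ HoelderOn a Q)
    (K : Set (Space d)) (hK : IsClosed K) (hseg : ContainsSegments U a K) :
    0 < volume K ∧ dimH K = (d + 1 : ℕ) ∧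
      ∃ p q : ℝ, p < q ∧ {t : ℝ | t ∈ Icc p q ∧ volume (slice K t) = 0}.encard ≤ d := by
  obtain ⟨v₀, hv₀, p, q, hpq, O, hO, hOK⟩ := baire U hU hne a ha K hK hseg
  obtain ⟨Q, hQ, hQE⟩ := hE v₀ hv₀
  obtain ⟨R, hR, hRsub⟩ := Metric.nhds_basis_closedBall.mem_iff.1
    (Filter.inter_mem (Filter.inter_mem hO hQ) (hU.mem_nhds hv₀))
  have hRO : Metric.closedBall v₀ R ⊆ O := fun v hv => (hRsub hv).1.1
  have hRQ : Metric.closedBall v₀ R ⊆ Q := fun v hv => (hRsub hv).1.2
  have hRU : Metric.closedBall v₀ R ⊆ U := fun v hv => (hRsub hv).2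
  have haR : ContinuousOn a (Metric.closedBall v₀ R) := ha.mono hRU
  have hsl : ∀ t : Fin (d + 1) → ℝ, Function.Injective t →
      ∃ i, volume ((fun v => a v + t i • v) '' Metric.closedBall v₀ R) ≠ 0 := by
    intro t ht
    rcases hQE with hQE | ⟨α, C, hα0, hα, hH⟩
    · refine Pool.Agent.W769.Kak.slices_on (by omega) v₀ hR haR (ne_top_of_le_ne_top hQE.ne ?_) t ht
      unfold energy
      calc ∫⁻ v in Metric.closedBall v₀ R, ∫⁻ w in Metric.closedBall v₀ R,
            ‖a v - a w‖ₑ ^ d / ‖v - w‖ₑ ^ (2 * d - 1)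
          ≤ ∫⁻ v in Metric.closedBall v₀ R, ∫⁻ w in Q,
            ‖a v - a w‖ₑ ^ d / ‖v - w‖ₑ ^ (2 * d - 1) :=
            lintegral_mono fun v => lintegral_mono_set hRQ
        _ ≤ ∫⁻ v in Q, ∫⁻ w in Q, ‖a v - a w‖ₑ ^ d / ‖v - w‖ₑ ^ (2 * d - 1) :=
            lintegral_mono_set hRQ
    · have hd0 : (0 : ℝ) < d := by exact_mod_cast (by omega : 0 < d)
      refine Pool.Agent.W769.Kak.slices_hoelder_on (by omega) v₀ hR (C := C) hα0 ?_ haR
        (fun v hv w hw => hH v (hRQ hv) w (hRQ hw)) t ht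
      have h1 : (1 - 1 / (d : ℝ)) * d < α * d := mul_lt_mul_of_pos_right hα hd0
      have h2 : (1 - 1 / (d : ℝ)) * d = d - 1 := by field_simp
      linarith
  have hbad : {t : ℝ | volume ((fun v => a v + t • v) '' Metric.closedBall v₀ R) = 0}.encard ≤ d :=
    Pool.Agent.W769.Kak.encard_bad_le fun t ht => hsl t ht
  have hcount : {t : ℝ | volume ((fun v => a v + t • v) '' Metric.closedBall v₀ R) = 0}.Countable :=
    (Set.finite_of_encard_le_coe hbad).countable
  have hpos : volume ((fun z : Space d => (fun i => z i : Fin (d + 1) → ℝ)) '' K) ≠ 0 := by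
    refine Pool.Agent.W769.Kak.swept_pos haR continuousOn_id hpq hcount (fun v hv t ht => ?_)
    exact ⟨point t (a v + t • v), hOK v (hRO hv) t ht, rfl⟩
  have hproj : volume (Pool.Agent.W769.Kak.proj (id : Fin (d + 1) → Fin (d + 1)) '' K) ≠ 0 := hpos
  refine ⟨Pool.Agent.W769.Kak.volume_pos_of_proj _ hproj, le_antisymm ?_
    (Pool.Agent.W769.Kak.dimH_ge_of_proj _ hproj), p, q, hpq, ?_⟩
  · refine (dimH_mono (Set.subset_univ K)).trans ?_
    rw [Real.dimH_univ_eq_finrank]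
    simp
  · refine (Set.encard_le_encard ?_).trans hbad
    rintro t ⟨ht, h0⟩
    refine measure_mono_null ?_ h0
    rintro _ ⟨v, hv, rfl⟩
    exact hOK v (hRO hv) t ht

end Pool.Agent.Results.MP_b1773a_an.SobolevSelections
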